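import Pool.Agent.ZP3.Stmts

/-!
GNR (squad ZP3): polynomials of Gauss norm at least 1 are small only near finitely many points.
-/

set_option autoImplicit false

namespace Pool.Agent.ZP3.H20

open Polynomial Pool.Agent.ZPT Pool.Agent.ZP3

theorem nsub {K : Type} [NormedField K] [IsUltrametricDist K] (a b : K) :
    ‖a - b‖ ≤ max ‖a‖ ‖b‖ := by
  have h := IsUltrametricDist.norm_add_le_max a (-b)
  rwa [norm_neg, ← sub_eq_add_neg] at h

theorem gl {K : Type} [NormedField K] [IsUltrametricDist K] [IsAlgClosed K] (n : ℕ) :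
    ∀ P : K[X], P.natDegree = n → ∀ T : K, ‖T‖ ≤ 1 → (∀ r, P.eval r = 0 → 1 ≤ ‖T - r‖) →
      ∀ j, ‖P.coeff j‖ ≤ ‖P.eval T‖ := by
  induction n with
  | zero =>
    intro P hP T _ _ j
    rw [eq_C_of_natDegree_eq_zero hP, coeff_C, eval_C]
    split_ifs
    · exact le_refl _
    · rw [norm_zero]; exact norm_nonneg _
  | succ n ih =>
    intro P hP T hT hr j
    have hdeg : P.degree ≠ 0 := by
      intro h
      have := natDegree_eq_of_degree_eq_some (n := 0) (by simpa using h)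
      omega
    obtain ⟨r, hroot⟩ := IsAlgClosed.exists_root P hdeg
    obtain ⟨Q, hQ⟩ := dvd_iff_isRoot.mpr hroot
    have hP0 : P ≠ 0 := by
      intro h; rw [h, natDegree_zero] at hP; omega
    have hQ0 : Q ≠ 0 := by
      intro h; rw [h, mul_zero] at hQ; exact hP0 hQ
    have hQd : Q.natDegree = n := by
      have h1 := natDegree_mul (X_sub_C_ne_zero r) hQ0
      rw [← hQ, hP, natDegree_X_sub_C] at h1
      omega
    have hTr : 1 ≤ ‖T - r‖ := hr r hroot
    have hrn : ‖r‖ ≤ ‖T - r‖ := by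
      have h1 : r = T - (T - r) := by ring
      have h2 : ‖r‖ ≤ max ‖T‖ ‖T - r‖ := by
        calc ‖r‖ = ‖T - (T - r)‖ := by rw [← h1]
          _ ≤ max ‖T‖ ‖T - r‖ := nsub _ _
      exact h2.trans (max_le (hT.trans hTr) (le_refl _))
    have hIH := ih Q hQd T hT (by
      intro s hs
      apply hr
      rw [hQ, eval_mul, hs, mul_zero])
    have hev : ‖P.eval T‖ = ‖T - r‖ * ‖Q.eval T‖ := by
      rw [hQ, eval_mul, eval_sub, eval_X, eval_C, norm_mul]
    have hb : ∀ i, ‖r * Q.coeff i‖ ≤ ‖T - r‖ * ‖Q.eval T‖ := by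
      intro i
      rw [norm_mul]
      exact mul_le_mul hrn (hIH i) (norm_nonneg _) (norm_nonneg _)
    have hb2 : ∀ i, ‖Q.coeff i‖ ≤ ‖T - r‖ * ‖Q.eval T‖ := by
      intro i
      calc ‖Q.coeff i‖ ≤ ‖Q.eval T‖ := hIH i
        _ = 1 * ‖Q.eval T‖ := by rw [one_mul]
        _ ≤ ‖T - r‖ * ‖Q.eval T‖ := mul_le_mul_of_nonneg_right hTr (norm_nonneg _)
    rw [hev, hQ, sub_mul, coeff_sub, coeff_C_mul]
    cases j with
    | zero =>
      rw [coeff_X_mul_zero, zero_sub, norm_neg]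
      exact hb 0
    | succ j =>
      rw [coeff_X_mul]
      exact (nsub _ _).trans (max_le (hb2 j) (hb (j + 1)))

theorem gnr : GNRStmt := by
  intro K _ _ _ N hN
  classical
  obtain ⟨i, hi⟩ := hN
  have hN0 : N ≠ 0 := by
    intro h
    rw [h, coeff_zero, norm_zero] at hi
    linarith
  refine ⟨N.roots.toFinset, ?_⟩
  intro T hT hev
  by_contra hcon
  have h1 : ∀ r, N.eval r = 0 → 1 ≤ ‖T - r‖ := by
    intro r hr
    by_contra hlt
    apply hcon
    refine ⟨r, ?_, lt_of_not_ge hlt⟩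
    rw [Multiset.mem_toFinset, mem_roots hN0]
    exact hr
  have h2 := gl N.natDegree N rfl T hT h1 i
  linarith

end Pool.Agent.ZP3.H20
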